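import Mathlib

/-!
# Logarithm in the complement of a curve to infinity (job SLIT of the project LC of helper272)

`t` is the statement `Pool.Agent.Y272.LC.St_Slit`.
-/

set_option autoImplicit false

open Complex Filter Topology Metric Set

namespace Pool.Agent.Y941.LC

/-- The image of the curve is closed. -/
theorem closed_im {p : ℝ → ℂ} (hp : ContinuousOn p (Ici 0))
    (ht : Tendsto (fun s => ‖p s‖) atTop atTop) : IsClosed (p '' Ici 0) := by
  refine isClosed_of_closure_subset fun z hz => ?_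
  obtain ⟨S, hS⟩ := (ht.eventually_ge_atTop (‖z‖ + 1)).exists_forall_of_atTop
  have h1 : p '' Ici 0 ⊆ p '' Icc 0 (max S 0) ∪ {w | ‖z‖ + 1 ≤ ‖w‖} := by
    rintro _ ⟨s, hs, rfl⟩
    rcases le_total s (max S 0) with h | h
    · exact Or.inl ⟨s, ⟨hs, h⟩, rfl⟩
    · exact Or.inr (hS s (le_trans (le_max_left _ _) h))
  have h2 := closure_mono h1 hz
  rw [closure_union, (isCompact_Icc.image_of_continuousOn
    (hp.mono Icc_subset_Ici_self)).isClosed.closure_eq,
    (isClosed_le continuous_const continuous_norm).closure_eq] at h2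
  rcases h2 with h2 | h2
  · exact image_mono Icc_subset_Ici_self h2
  · have h3 : ‖z‖ + 1 ≤ ‖z‖ := h2
    linarith

/-- Continuous logarithms on the line. -/
theorem log_line {f : ℝ → ℂ} (hf : Continuous f) (h0 : ∀ s, f s ≠ 0) :
    ∃ u : ℝ → ℂ, Continuous u ∧ ∀ s, exp (u s) = f s := by
  obtain ⟨F, ⟨-, hF⟩, -⟩ := Complex.isCoveringMapOn_exp.existsUnique_continuousMap_lifts
    (A := ℝ) ⟨f, hf⟩ (a₀ := 0) (e₀ := log (f 0)) (exp_log (h0 0)) (fun a => h0 a)
  exact ⟨F, F.continuous, fun s => congrFun hF s⟩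

/-- A continuous function `h` with `exp h = 1` is constant. -/
theorem const_of_exp {h : ℝ → ℂ} {S : ℝ} (hc : ContinuousOn h (Ici S))
    (he : ∀ s ∈ Ici S, exp (h s) = 1) : ∀ s ∈ Ici S, h s = h S := by
  have hz : ∀ s ∈ Ici S, ∃ n : ℤ, h s = n * (2 * Real.pi * I) := fun s hs =>
    Complex.exp_eq_one_iff.1 (he s hs)
  have hre : ∀ s ∈ Ici S, (h s).re = 0 ∧ ∃ n : ℤ, (h s).im = n * (2 * Real.pi) := by
    intro s hs
    obtain ⟨n, hn⟩ := hz s hs
    rw [hn]
    constructor
    · simp
    · exact ⟨n, by simp⟩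
  have hci : ContinuousOn (fun s => (h s).im) (Ici S) := continuous_im.comp_continuousOn hc
  have key : ∀ a ∈ Ici S, ∀ b ∈ Ici S, ¬ (h a).im < (h b).im := by
    intro a ha b hb hab
    obtain ⟨-, m, hm⟩ := hre a ha
    obtain ⟨-, n, hn⟩ := hre b hb
    have hpi := Real.pi_pos
    have hmn : m < n := by
      rw [hm, hn] at hab
      have : (m : ℝ) < n := lt_of_mul_lt_mul_right hab (by positivity)
      exact_mod_cast this
    have hmn' : (m : ℝ) + 1 ≤ n := by exact_mod_cast hmn
    obtain ⟨c, hcS, hcv⟩ := isPreconnected_Ici.intermediate_value ha hb hci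
      (show (m : ℝ) * (2 * Real.pi) + Real.pi ∈ Icc ((h a).im) ((h b).im) from by
        rw [hm, hn]
        constructor
        · linarith
        · nlinarith)
    obtain ⟨-, k, hk⟩ := hre c hcS
    simp only at hcv
    rw [hk] at hcv
    have h5 : (k : ℝ) = m + 1 / 2 := by
      have : (k : ℝ) * (2 * Real.pi) = (m + 1 / 2) * (2 * Real.pi) := by rw [hcv]; ring
      exact mul_right_cancel₀ (by positivity) this
    have h6 : (2 * k : ℤ) = 2 * m + 1 := by
      have : (2 : ℝ) * k = 2 * m + 1 := by rw [h5]; ring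
      exact_mod_cast this
    omega
  intro s hs
  have hS : S ∈ Ici S := self_mem_Ici
  apply Complex.ext
  · rw [(hre s hs).1, (hre S hS).1]
  · exact le_antisymm (not_lt.1 (key S hS s hs)) (not_lt.1 (key s hs S hS))

/-- If `exp u → 1` then `u - 2 π i k → 0` for an integer `k`. -/
theorem tend_log {u : ℝ → ℂ} (hu : Continuous u)
    (h1 : Tendsto (fun s => exp (u s)) atTop (𝓝 1)) :
    ∃ c : ℂ, exp c = 1 ∧ Tendsto (fun s => u s - c) atTop (𝓝 0) := by
  obtain ⟨S, hS⟩ := (h1.eventually (ball_mem_nhds (1 : ℂ) one_pos)).exists_forall_of_atTop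
  have hsl : ∀ s ∈ Ici S, exp (u s) ∈ slitPlane := fun s hs =>
    ball_one_subset_slitPlane (hS s hs)
  have hc : ContinuousOn (fun s => u s - log (exp (u s))) (Ici S) :=
    hu.continuousOn.sub ((Complex.continuous_exp.comp hu).continuousOn.clog hsl)
  have he : ∀ s ∈ Ici S, exp (u s - log (exp (u s))) = 1 := by
    intro s _
    rw [exp_sub, exp_log (exp_ne_zero _), div_self (exp_ne_zero _)]
  have hk := const_of_exp hc he
  refine ⟨u S - log (exp (u S)), he S self_mem_Ici, ?_⟩
  have h2 : Tendsto (fun s => log (exp (u s))) atTop (𝓝 (log 1)) :=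
    (continuousAt_clog (by simp)).tendsto.comp h1
  rw [log_one] at h2
  refine h2.congr' ?_
  filter_upwards [eventually_ge_atTop S] with s hs
  have := hk s hs
  rw [← this]
  ring

/-- The statement `St_Slit`. -/
theorem t : ∀ p : ℝ → ℂ, ContinuousOn p (Ici 0) → Tendsto (fun s => ‖p s‖) atTop atTop →
    IsClosed (p '' Ici 0) ∧ ∃ L : ℂ → ℂ, DifferentiableOn ℂ L (p '' Ici 0)ᶜ ∧
      ∀ z ∈ (p '' Ici 0)ᶜ, Complex.exp (L z) = z - p 0 := by
  intro p hp ht
  have hcl := closed_im hp ht
  refine ⟨hcl, ?_⟩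
  -- the extended curve
  obtain ⟨r, hr⟩ : ∃ r : ℝ → ℂ, r = fun s => p (max s 0) := ⟨_, rfl⟩
  have hrc : Continuous r := by
    rw [hr]
    exact hp.comp_continuous (by fun_prop) (fun s => mem_Ici.2 (le_max_right _ _))
  have hrn : Tendsto (fun s => ‖r s‖) atTop atTop := by
    refine ht.congr' ?_
    filter_upwards [eventually_ge_atTop 0] with s hs
    rw [hr]
    simp only
    rw [max_eq_left hs]
  have hr0 : r 0 = p 0 := by rw [hr]; simp
  have hrm : ∀ s, r s ∈ p '' Ici 0 := fun s => by
    rw [hr]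
    exact ⟨max s 0, mem_Ici.2 (le_max_right _ _), rfl⟩
  have hne : ∀ z ∈ (p '' Ici 0)ᶜ, ∀ s, z - r s ≠ 0 := fun z hz s h =>
    hz (by rw [sub_eq_zero.1 h]; exact hrm s)
  -- a logarithm of `- r` near infinity
  obtain ⟨S0, hS0⟩ := (hrn.eventually_ge_atTop 1).exists_forall_of_atTop
  obtain ⟨ell, hellc, hell⟩ := log_line (f := fun s => -r (max s S0))
    (hrc.comp (by fun_prop)).neg (fun s h => by
      have h1 := hS0 (max s S0) (le_max_right _ _)
      rw [neg_eq_zero.1 h, norm_zero] at h1
      linarith)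
  -- quotients near infinity
  have hq : ∀ z w : ℂ, Tendsto (fun s => (z - r s) / (w - r s)) atTop (𝓝 1) := by
    intro z w
    have h1 : Tendsto (fun s => ‖w - r s‖) atTop atTop := by
      refine tendsto_atTop_mono (fun s => ?_) (tendsto_atTop_add_const_right _ (-‖w‖) hrn)
      have := norm_sub_norm_le (r s) w
      rw [norm_sub_rev] at this
      linarith
    have h2 : Tendsto (fun s => (z - w) / (w - r s)) atTop (𝓝 0) := by
      rw [tendsto_zero_iff_norm_tendsto_zero]
      simp only [norm_div]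
      exact h1.const_div_atTop _
    have h3 : Tendsto (fun s => 1 + (z - w) / (w - r s)) atTop (𝓝 (1 + 0)) := h2.const_add 1
    rw [add_zero] at h3
    refine h3.congr' ?_
    filter_upwards [h1.eventually_gt_atTop 0] with s hs
    have hs' : w - r s ≠ 0 := norm_pos_iff.1 hs
    field_simp
    ring
  -- good logarithms
  have hex : ∀ z ∈ (p '' Ici 0)ᶜ, ∃ u : ℝ → ℂ, Continuous u ∧ (∀ s, exp (u s) = z - r s) ∧
      Tendsto (fun s => u s - ell s) atTop (𝓝 0) := by
    intro z hz
    obtain ⟨u, hu, hue⟩ := log_line (f := fun s => z - r s) (by fun_prop) (hne z hz)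
    have h1 : Tendsto (fun s => exp (u s - ell s)) atTop (𝓝 1) := by
      refine (hq z 0).congr' ?_
      filter_upwards [eventually_ge_atTop S0] with s hs
      rw [exp_sub, hue, hell, max_eq_left hs, zero_sub]
    obtain ⟨c, hc1, hc2⟩ := tend_log (hu.sub hellc) h1
    refine ⟨fun s => u s - c, by fun_prop, fun s => ?_, ?_⟩
    · rw [exp_sub, hue, hc1, div_one]
    · refine hc2.congr fun s => ?_
      rw [Pi.sub_apply]
      ring
  have huniq : ∀ z : ℂ, ∀ u v : ℝ → ℂ, Continuous u → (∀ s, exp (u s) = z - r s) →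
      Tendsto (fun s => u s - ell s) atTop (𝓝 0) → Continuous v →
      (∀ s, exp (v s) = z - r s) → Tendsto (fun s => v s - ell s) atTop (𝓝 0) → u 0 = v 0 := by
    intro z u v hu hue hut hv hve hvt
    have h1 : ∀ s ∈ Ici (0 : ℝ), exp (u s - v s) = 1 := by
      intro s _
      rw [exp_sub, hue, hve, div_self]
      rw [← hve]
      exact exp_ne_zero _
    have h2 := const_of_exp (hu.sub hv).continuousOn h1
    have h3 : Tendsto (fun s => (u s - ell s) - (v s - ell s)) atTop (𝓝 (0 - 0)) := hut.sub hvt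
    have h4 : Tendsto (fun s => (u s - ell s) - (v s - ell s)) atTop (𝓝 (u 0 - v 0)) := by
      refine tendsto_const_nhds.congr' ?_
      filter_upwards [eventually_ge_atTop 0] with s hs
      have h6 : u s - v s = u 0 - v 0 := h2 s hs
      rw [← h6]
      ring
    have h5 := tendsto_nhds_unique h4 h3
    rw [sub_zero] at h5
    exact sub_eq_zero.1 h5
  choose! Lam hLc hLe hLt using hex
  refine ⟨fun z => Lam z 0, ?_, fun z hz => by rw [hLe z hz, hr0]⟩
  intro z1 hz1
  have hU : IsOpen (p '' Ici 0)ᶜ := hcl.isOpen_compl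
  obtain ⟨δ, hδ, hball⟩ := Metric.isOpen_iff.1 hU z1 hz1
  -- the local formula
  have hloc : ∀ z ∈ ball z1 δ, Lam z 0 = Lam z1 0 + log ((z - r 0) / (z1 - r 0)) := by
    intro z hz
    have hzU := hball hz
    have hsl : ∀ s, (z - r s) / (z1 - r s) ∈ slitPlane := by
      intro s
      apply ball_one_subset_slitPlane
      have h1 : δ ≤ ‖z1 - r s‖ := by
        by_contra hcon
        push Not at hcon
        exact hball (show r s ∈ ball z1 δ by rw [mem_ball, dist_comm, dist_eq_norm]; exact hcon)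
          (hrm s)
      have h2 : z1 - r s ≠ 0 := hne z1 hz1 s
      have h3 : (z - r s) / (z1 - r s) - 1 = (z - z1) / (z1 - r s) := by
        field_simp
        ring
      rw [mem_ball, dist_eq_norm, h3, norm_div, div_lt_one (norm_pos_iff.2 h2)]
      rw [mem_ball, dist_eq_norm] at hz
      linarith
    have hcont : Continuous (fun s => (z - r s) / (z1 - r s)) :=
      Continuous.div (by fun_prop) (by fun_prop) (hne z1 hz1)
    refine huniq z _ (fun s => Lam z1 s + log ((z - r s) / (z1 - r s))) (hLc z hzU) (hLe z hzU)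
      (hLt z hzU) ?_ (fun s => ?_) ?_
    · exact (hLc z1 hz1).add (hcont.clog hsl)
    · rw [exp_add, hLe z1 hz1, exp_log (slitPlane_ne_zero (hsl s))]
      have := hne z1 hz1 s
      field_simp
    · have h1 : Tendsto (fun s => log ((z - r s) / (z1 - r s))) atTop (𝓝 (log 1)) :=
        (continuousAt_clog (by simp)).tendsto.comp (hq z z1)
      rw [log_one] at h1
      have h2 := (hLt z1 hz1).add h1
      rw [add_zero] at h2
      refine h2.congr fun s => ?_
      ring
  have hd : DifferentiableAt ℂ (fun z => Lam z1 0 + log ((z - r 0) / (z1 - r 0))) z1 := by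
    refine DifferentiableAt.const_add _ (DifferentiableAt.clog ?_ ?_)
    · exact (differentiableAt_id.sub_const _).div_const _
    · rw [div_self (hne z1 hz1 0)]
      simp
  refine (hd.congr_of_eventuallyEq ?_).differentiableWithinAt
  filter_upwards [ball_mem_nhds z1 hδ] with z hz
  exact hloc z hz

end Pool.Agent.Y941.LC
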